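import Mathlib

namespace Pool.Agent.Results.MP_c0e3d8_co.Yes

variable {A : Type*}

/-- The finite word `y` occurs as a factor of the infinite word `w` at position `p`. -/
def OccAt (y : List A) (w : ℕ → A) (p : ℕ) : Prop :=
  ∀ (i : ℕ) (h : i < y.length), w (p + i) = y[i]

/-- An infinite word is quasiperiodic: some finite word covers every position. -/
def QP (w : ℕ → A) : Prop :=
  ∃ x : List A, ∀ i, ∃ j, j ≤ i ∧ i < j + x.length ∧ OccAt x w j

/-- `w` is the infinite word having every `p n` as a prefix, the lengths being unbounded. -/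
def IsLim (p : ℕ → List A) (w : ℕ → A) : Prop :=
  (∀ n, OccAt (p n) w 0) ∧ ∀ L, ∃ n, L ≤ (p n).length

/-- The prefix of length `n` of an infinite word. -/
def pre (w : ℕ → A) (n : ℕ) : List A := (List.range n).map w

/-- The morphism of the free monoid with letter images `f`. -/
def app (f : A → List A) (y : List A) : List A := y.flatMap f

lemma occ_append {y z : List A} {w : ℕ → A} {p : ℕ} :
    OccAt (y ++ z) w p ↔ OccAt y w p ∧ OccAt z w (p + y.length) := by
  constructor
  · intro h
    refine ⟨fun i hi => ?_, fun i hi => ?_⟩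
    · rw [h i (by simp; omega), List.getElem_append_left hi]
    · rw [add_assoc, h (y.length + i) (by simp; omega), List.getElem_append_right (by omega)]
      simp
  · rintro ⟨h1, h2⟩ i hi
    by_cases hy : i < y.length
    · rw [List.getElem_append_left hy, h1 i hy]
    · rw [List.getElem_append_right (by omega), ← h2 (i - y.length) (by simp at hi; omega)]
      congr 1; omega

lemma occ_prefix {y z : List A} {w : ℕ → A} {p : ℕ} (h : y <+: z) (hz : OccAt z w p) :
    OccAt y w p := by
  obtain ⟨t, rfl⟩ := h
  exact (occ_append.1 hz).1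

lemma prefix_of_occ {y z : List A} {w : ℕ → A} {p : ℕ} (hy : OccAt y w p) (hz : OccAt z w p)
    (h : y.length ≤ z.length) : y <+: z := by
  rw [List.prefix_iff_getElem]
  exact ⟨h, fun i hi => by rw [← hy i hi, ← hz i (by omega)]⟩

lemma occ_pre (w : ℕ → A) (n : ℕ) : OccAt (pre w n) w 0 := by
  intro i hi
  simp [pre]

lemma len_pre (w : ℕ → A) (n : ℕ) : (pre w n).length = n := by simp [pre]

lemma exists_lim (p : ℕ → List A) (hc : ∀ n, p n <+: p (n + 1)) (hl : ∀ n, n ≤ (p n).length) :
    ∃ w, IsLim p w := by
  have hm : ∀ n k, p n <+: p (n + k) := by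
    intro n k
    induction k with
    | zero => exact List.prefix_rfl
    | succ k ih => exact ih.trans (hc _)
  refine ⟨fun i => (p (i + 1))[i]'(hl (i + 1)), fun n i hi => ?_, fun L => ⟨L, hl L⟩⟩
  simp only [zero_add]
  have h1 := (hm (i + 1) n).getElem (i := i) (hl (i + 1))
  have h2 := (hm n (i + 1)).getElem (i := i) hi
  rw [h1, h2]
  congr 1
  rw [add_comm]

def G (f : A → List A) (k : ℕ) (y : List A) : List A := (app f)^[k] y

lemma G_succ (f : A → List A) (k : ℕ) (y : List A) : G f (k + 1) y = app f (G f k y) := by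
  simp [G, Function.iterate_succ_apply']

lemma app_append (f : A → List A) (y z : List A) : app f (y ++ z) = app f y ++ app f z := by
  simp [app]

lemma G_append (f : A → List A) (k : ℕ) (y z : List A) : G f k (y ++ z) = G f k y ++ G f k z := by
  induction k with
  | zero => rfl
  | succ k ih => rw [G_succ, G_succ, G_succ, ih, app_append]

lemma G_prefix (f : A → List A) (k : ℕ) {y z : List A} (h : y <+: z) : G f k y <+: G f k z := by
  obtain ⟨t, rfl⟩ := h
  rw [G_append]; exact List.prefix_append _ _

lemma app_prefix (f : A → List A) {y z : List A} (h : y <+: z) : app f y <+: app f z := by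
  obtain ⟨t, rfl⟩ := h
  rw [app_append]; exact List.prefix_append _ _

def rep (t : List A) : ℕ → List A
  | 0 => []
  | m + 1 => rep t m ++ t

lemma len_rep (t : List A) (m : ℕ) : (rep t m).length = m * t.length := by
  induction m with
  | zero => simp [rep]
  | succ m ih => simp [rep, ih, add_mul]

lemma G_rep (f : A → List A) (k : ℕ) (t : List A) (m : ℕ) : G f k (rep t m) = rep (G f k t) m := by
  induction m with
  | zero =>
    induction k with
    | zero => rfl
    | succ k ih => rw [G_succ, ih]; simp [rep, app]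
  | succ m ih => simp only [rep, G_append, ih]

lemma lim_occ {S T : List A} {x : ℕ → A} (h : IsLim (fun m => S ++ rep T m) x) :
    OccAt S x 0 ∧ ∀ m, OccAt T x (S.length + m * T.length) := by
  refine ⟨(occ_append.1 (h.1 0)).1, fun m => ?_⟩
  have h1 := (occ_append.1 (h.1 (m + 1))).2
  have h2 := (occ_append.1 h1).2
  rw [len_rep, zero_add] at h2
  exact h2

def Ret (a : A) (s : List A) : Prop :=
  0 < s.length ∧ ∀ (i : ℕ) (h : i < s.length), s[i] = a ↔ i = 0

lemma Ret.pre {a : A} {s : List A} (h : Ret a s) : [a] <+: s := by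
  rw [List.prefix_iff_getElem]
  refine ⟨h.1, fun i hi => ?_⟩
  have : i = 0 := by simpa using hi
  subst this
  simpa using ((h.2 0 h.1).2 rfl).symm

lemma not_qp {a : A} {s t : List A} (hs : Ret a s) (ht : Ret a t) (hne : s ≠ t) {w : ℕ → A}
    (h : IsLim (fun m => s ++ rep t m) w) : ¬ QP w := by
  obtain ⟨h1, h2⟩ := lim_occ h
  rintro ⟨x, hx⟩
  have hs0 := hs.1
  have ht0 := ht.1
  have hpos : ∀ j, w j = a → j = 0 ∨ ∃ m, j = s.length + m * t.length := by
    intro j hj
    by_cases hjs : j < s.length
    · left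
      have := h1 j hjs
      rw [zero_add, hj] at this
      exact (hs.2 j hjs).1 this.symm
    · right
      have hr := Nat.mod_lt (j - s.length) ht0
      have he := Nat.div_add_mod' (j - s.length) t.length
      have := h2 ((j - s.length) / t.length) _ hr
      rw [show s.length + (j - s.length) / t.length * t.length + (j - s.length) % t.length = j by
        omega, hj] at this
      have h0 := (ht.2 _ hr).1 this.symm
      exact ⟨(j - s.length) / t.length, by omega⟩
  have hwa : ∀ m, w (s.length + m * t.length) = a := by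
    intro m
    have := h2 m 0 ht0
    rw [add_zero] at this
    rw [this]; exact (ht.2 0 ht0).2 rfl
  obtain ⟨j0, hj0, hx0, ho0⟩ := hx 0
  have : j0 = 0 := by omega
  subst this
  have hxa : ∀ j, OccAt x w j → w j = a := by
    intro j hj
    have e1 := hj 0 (by omega)
    have e2 := ho0 0 (by omega)
    have e3 := h1 0 hs0
    have e4 := (hs.2 0 hs0).2 rfl
    simp only [add_zero] at e1 e2 e3
    rw [e1, ← e2, e3, e4]
  have hsx : s.length ≤ x.length := by
    obtain ⟨j, hj1, hj2, hj3⟩ := hx (s.length - 1)
    rcases hpos j (hxa j hj3) with rfl | ⟨m, rfl⟩ <;> omega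
  obtain ⟨j, hj1, hj2, hj3⟩ := hx (s.length + x.length * t.length + t.length - 1)
  have hge : x.length ≤ x.length * t.length := Nat.le_mul_of_pos_right _ ht0
  rcases hpos j (hxa j hj3) with rfl | ⟨m, rfl⟩
  · omega
  have hm : m ≤ x.length := by
    by_contra hc
    have : (x.length + 1) * t.length ≤ m * t.length := Nat.mul_le_mul_right _ (by omega)
    rw [add_mul, one_mul] at this
    omega
  have hm' : m * t.length ≤ x.length * t.length := Nat.mul_le_mul_right _ hm
  have htx : t.length ≤ x.length := by omega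
  have p1 : s <+: x := prefix_of_occ h1 ho0 hsx
  have p2 : t <+: x := prefix_of_occ (h2 m) hj3 htx
  rcases lt_trichotomy s.length t.length with hl | hl | hl
  · have e1 := ho0 s.length (by omega)
    have e2 := hwa 0
    have e3 := p2.getElem (i := s.length) hl
    simp only [zero_add, zero_mul, add_zero] at e1 e2
    have := (ht.2 _ hl).1 (by rw [e3, ← e1, e2])
    omega
  · exact hne ((List.prefix_of_prefix_length_le p1 p2 hl.le).eq_of_length hl)
  · have e1 := hj3 t.length (by omega)
    have e2 := hwa (m + 1)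
    have e3 := p1.getElem (i := t.length) hl
    rw [add_mul, one_mul, ← add_assoc] at e2
    have := (hs.2 _ hl).1 (by rw [e3, ← e1, e2])
    omega

def Cov (Q X : List A) : Prop :=
  ∀ i < X.length, ∃ j ≤ i, i < j + Q.length ∧
    ∀ (x : ℕ → A) (p : ℕ), OccAt (X ++ Q) x p → OccAt Q x (p + j)

lemma qp_of_cov {Q S T : List A} (hT : 0 < T.length) (hQ : Q <+: T) (h1 : Cov Q S) (h2 : Cov Q T)
    {x : ℕ → A} (h : IsLim (fun m => S ++ rep T m) x) : QP x := by
  obtain ⟨o1, o2⟩ := lim_occ h
  refine ⟨Q, fun i => ?_⟩
  by_cases hi : i < S.length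
  · obtain ⟨j, hj1, hj2, hj3⟩ := h1 i hi
    refine ⟨j, hj1, hj2, ?_⟩
    have := hj3 x 0 (occ_append.2 ⟨o1, by simpa using occ_prefix hQ (o2 0)⟩)
    simpa using this
  · have hr := Nat.mod_lt (i - S.length) hT
    have he := Nat.div_add_mod' (i - S.length) T.length
    obtain ⟨j, hj1, hj2, hj3⟩ := h2 _ hr
    refine ⟨S.length + (i - S.length) / T.length * T.length + j, by omega, by omega, ?_⟩
    apply hj3
    refine occ_append.2 ⟨o2 _, ?_⟩
    have := occ_prefix hQ (o2 ((i - S.length) / T.length + 1))
    rw [add_mul, one_mul, ← add_assoc] at this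
    exact this

lemma cov_of_occ {Q X : List A} {u : ℕ → A} {p : ℕ}
    (hu : ∀ i, ∃ j, j ≤ i ∧ i < j + Q.length ∧ OccAt Q u j) (h1 : OccAt (X ++ Q) u p)
    (h2 : OccAt Q u p) : Cov Q X := by
  have key : ∀ j ≤ X.length, OccAt Q u (p + j) →
      ∀ (x : ℕ → A) (p' : ℕ), OccAt (X ++ Q) x p' → OccAt Q x (p' + j) := by
    intro j hj ho x p' hx i hi
    rw [add_assoc, hx (j + i) (by simp; omega), ← h1 (j + i) (by simp; omega), ← add_assoc, ho i hi]
  intro i hi
  obtain ⟨j, hj1, hj2, hj3⟩ := hu (p + i)
  by_cases hj : p ≤ j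
  · refine ⟨j - p, by omega, by omega, key _ (by omega) ?_⟩
    rwa [show p + (j - p) = j by omega]
  · exact ⟨0, by omega, by omega, key 0 (by omega) h2⟩

lemma finish (f : A → List A) {a : A} (ha : ∀ k, [a] <+: G f k [a]) {s t Q : List A} (hs : Ret a s)
    (ht : Ret a t) (hne : s ≠ t) (n : ℕ) (hQ : Q <+: G f n [a]) (h1 : Cov Q (G f n s))
    (h2 : Cov Q (G f n t)) :
    ∃ w : ℕ → A, ¬ QP w ∧ ∃ x, IsLim (fun n => app f (pre w n)) x ∧ QP x := by
  have hT : ∀ k, 0 < (G f k t).length := fun k =>
    ((ha k).trans (G_prefix f k ht.pre)).length_le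
  have hW : ∀ k, ∃ w, IsLim (fun m => G f k s ++ rep (G f k t) m) w := by
    intro k
    apply exists_lim
    · intro m
      simp only [rep, ← List.append_assoc]
      exact List.prefix_append _ _
    · intro m
      have := Nat.le_mul_of_pos_right m (hT k)
      simp only [List.length_append, len_rep]
      omega
  choose W hW using hW
  have step : ∀ k, IsLim (fun n => app f (pre (W k) n)) (W (k + 1)) := by
    intro k
    have e : ∀ m, G f (k + 1) s ++ rep (G f (k + 1) t) m = app f (G f k s ++ rep (G f k t) m) := by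
      intro m
      rw [← G_rep, ← G_rep, ← G_append, ← G_append, G_succ]
    constructor
    · intro n
      obtain ⟨m, hm⟩ := (hW k).2 n
      have p1 := prefix_of_occ (occ_pre (W k) n) ((hW k).1 m) (by rw [len_pre]; exact hm)
      have p2 := (hW (k + 1)).1 m
      simp only [e] at p2
      exact occ_prefix (app_prefix f p1) p2
    · intro L
      obtain ⟨m, hm⟩ := (hW (k + 1)).2 L
      simp only [e] at hm
      refine ⟨(G f k s ++ rep (G f k t) m).length, hm.trans ?_⟩
      exact (app_prefix f (prefix_of_occ ((hW k).1 m) (occ_pre (W k) _)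
        (by rw [len_pre]))).length_le
  by_contra hc
  have hall : ∀ k, ¬ QP (W k) := by
    intro k
    induction k with
    | zero => exact not_qp hs ht hne (hW 0)
    | succ k ih => exact fun hq => hc ⟨W k, ih, W (k + 1), step k, hq⟩
  exact hall n (qp_of_cov (hT n) (hQ.trans (G_prefix f n ht.pre)) h1 h2 (hW n))

theorem result {A : Type*} [Finite A] (f : A → List A) (a : A) (u : ℕ → A)
    (ha : (f a).head? = some a) (hu : IsLim (fun n => (app f)^[n] [a]) u) (hq : QP u)
    (hp : ¬ ∃ k, f a = List.replicate k a) :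
    ∃ w : ℕ → A, ¬ QP w ∧ ∃ x, IsLim (fun n => app f (pre w n)) x ∧ QP x := by
  classical
  change IsLim (fun n => G f n [a]) u at hu
  have hfa : [a] <+: f a := by
    cases hf : f a with
    | nil => simp [hf] at ha
    | cons b l =>
      rw [hf] at ha
      simp only [List.head?_cons, Option.some.injEq] at ha
      subst ha
      exact ⟨l, rfl⟩
  have ha' : ∀ k, [a] <+: G f k [a] := by
    intro k
    induction k with
    | zero => exact List.prefix_rfl
    | succ k ih =>
      rw [G_succ]
      refine hfa.trans ?_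
      have := app_prefix f ih
      simpa [app] using this
  obtain ⟨q, hq⟩ := hq
  have hu0 : u 0 = a := by simpa [G] using hu.1 0 0 (by simp [G])
  obtain ⟨j0, hj0, hq0, ho0⟩ := hq 0
  have : j0 = 0 := by omega
  subst this
  have hinf : ∀ p, ∃ d, u (p + (d + 1)) = a := by
    intro p
    obtain ⟨j, hj1, hj2, hj3⟩ := hq (p + q.length)
    refine ⟨j - p - 1, ?_⟩
    have e1 := hj3 0 (by omega)
    have e2 := ho0 0 (by omega)
    simp only [add_zero] at e1 e2
    rw [show p + (j - p - 1 + 1) = j by omega, e1, ← e2, hu0]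
  have hret : ∀ p, u p = a → ∃ s, Ret a s ∧ OccAt (s ++ [a]) u p := by
    intro p hp0
    refine ⟨pre (fun i => u (p + i)) (Nat.find (hinf p) + 1), ⟨by simp [pre], ?_⟩, ?_⟩
    · intro i hi
      rw [len_pre] at hi
      simp only [pre, List.getElem_map, List.getElem_range]
      constructor
      · intro h
        by_contra h0
        refine Nat.find_min (hinf p) (m := i - 1) (by omega) ?_
        rwa [show i - 1 + 1 = i by omega]
      · rintro rfl; simpa using hp0
    · refine occ_append.2 ⟨fun i hi => by simp [pre], fun i hi => ?_⟩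
      have : i = 0 := by simpa using hi
      subst this
      simpa [len_pre] using Nat.find_spec (hinf p)
  have hfac : ∀ (n : ℕ) (y : List A) (p : ℕ), OccAt y u p → ∃ p', OccAt (G f n y) u p' := by
    intro n y p hy
    obtain ⟨m, hm⟩ := hu.2 (p + y.length)
    have o1 : OccAt (pre u p ++ y) u 0 :=
      occ_append.2 ⟨occ_pre u p, by simpa [len_pre] using hy⟩
    have p1 := G_prefix f n (prefix_of_occ o1 (hu.1 m) (by simpa [len_pre] using hm))
    have e : G f n (G f m [a]) = G f (n + m) [a] := by simp [G, Function.iterate_add_apply]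
    rw [e, G_append] at p1
    exact ⟨_, (occ_append.1 (occ_prefix p1 (hu.1 (n + m)))).2⟩
  obtain ⟨t, ht, hot⟩ := hret 0 hu0
  obtain ⟨n, hn⟩ := hu.2 (q.length + t.length)
  simp only at hn
  have hcov : ∀ Q : List A, Q <+: G f n [a] →
      (∀ i, ∃ j, j ≤ i ∧ i < j + Q.length ∧ OccAt Q u j) →
      ∀ s p, Ret a s → OccAt (s ++ [a]) u p → Cov Q (G f n s) := by
    intro Q hQ hc s p hs ho
    obtain ⟨p', hp'⟩ := hfac n _ p ho
    rw [G_append] at hp'
    obtain ⟨o1, o2⟩ := occ_append.1 hp'
    exact cov_of_occ hc (occ_append.2 ⟨o1, occ_prefix hQ o2⟩)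
      (occ_prefix (hQ.trans (G_prefix f n hs.pre)) o1)
  by_cases hA : ∃ s p, Ret a s ∧ OccAt (s ++ [a]) u p ∧ s ≠ t
  · obtain ⟨s, p, hs, hos, hne⟩ := hA
    have hQ : q <+: G f n [a] := prefix_of_occ ho0 (hu.1 n) (by omega)
    exact finish f ha' hs ht hne n hQ (hcov q hQ hq s p hs hos) (hcov q hQ hq t 0 ht hot)
  · have ht0 := ht.1
    have hocc : ∀ m, OccAt (t ++ [a]) u (m * t.length) := by
      intro m
      induction m with
      | zero => simpa using hot
      | succ m ih =>
        have e := (occ_append.1 ih).2 0 (by simp)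
        obtain ⟨s, hs, hos⟩ := hret (m * t.length + t.length) (by simpa using e)
        have : s = t := by
          by_contra hne
          exact hA ⟨s, _, hs, hos, hne⟩
        subst this
        rwa [add_mul, one_mul]
    have hmod : ∀ j, u j = t[j % t.length]'(Nat.mod_lt _ ht0) := by
      intro j
      have := (occ_append.1 (hocc (j / t.length))).1 _ (Nat.mod_lt j ht0)
      rwa [Nat.div_add_mod'] at this
    have hra : Ret a [a] := ⟨by simp, fun i hi => by
      have : i = 0 := by simpa using hi
      subst this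
      simp⟩
    have hne : [a] ≠ t := by
      rintro rfl
      apply hp
      refine ⟨(f a).length, List.eq_replicate_iff.2 ⟨rfl, fun b hb => ?_⟩⟩
      obtain ⟨i, hi, rfl⟩ := List.getElem_of_mem hb
      have o := hu.1 1
      have e : G f 1 [a] = f a := by simp [G, app]
      simp only [e] at o
      rw [← o i hi, hmod]
      simp
    have hc : ∀ i, ∃ j, j ≤ i ∧ i < j + (G f n [a]).length ∧ OccAt (G f n [a]) u j := by
      intro i
      have hr := Nat.mod_lt i ht0
      have he := Nat.div_add_mod' i t.length
      refine ⟨i / t.length * t.length, by omega, by omega, fun k hk => ?_⟩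
      rw [← hu.1 n k hk, hmod, hmod (0 + k)]
      congr 1
      simp
    refine finish f ha' hra ht hne n List.prefix_rfl ?_ (hcov _ List.prefix_rfl hc t 0 ht hot)
    intro i hi
    exact ⟨0, by omega, by omega, fun x p hx => (occ_append.1 hx).1⟩

end Pool.Agent.Results.MP_c0e3d8_co.Yes
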